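import Mathlib
import Pool.Agent.N718.DC.Stm4
import Pool.Agent.N681.DC.GLUE

/-! Part GLUEW of project DW (helper718): one integral base point for all `p ≤ W`. -/

set_option autoImplicit false
set_option linter.all false

namespace Pool.Agent.N265.DW

open Finset Pool.Agent.N718.DC
open Pool.Agent.N681.DC (fm_smul fm_cast fm_zero crt norm_int_le)

/-- Normalization of a vector. -/
theorem exists_unit {K : Type} [NormedField K] {m : ℕ} (x : Fin m → K) (hx : x ≠ 0) :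
    ∃ l : K, l ≠ 0 ∧ ‖fun j => l * x j‖ = 1 := by
  have hne : Nonempty (Fin m) := by
    by_contra h
    rw [not_nonempty_iff] at h
    exact hx (Subsingleton.elim _ _)
  obtain ⟨j0, hj0⟩ := Finite.exists_max (fun j => ‖x j‖)
  have h0 : x j0 ≠ 0 := by
    intro h
    apply hx
    funext j
    have := hj0 j
    rw [h, norm_zero] at this
    exact norm_le_zero_iff.1 this
  have h1 : 0 < ‖x j0‖ := norm_pos_iff.2 h0
  refine ⟨(x j0)⁻¹, inv_ne_zero h0, le_antisymm ?_ ?_⟩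
  · rw [pi_norm_le_iff_of_nonneg zero_le_one]
    intro j
    rw [norm_mul, norm_inv, ← div_eq_inv_mul]
    exact (div_le_one h1).2 (hj0 j)
  · have h2 := norm_le_pi_norm (fun j => (x j0)⁻¹ * x j) j0
    simp only [inv_mul_cancel₀ h0, norm_one] at h2
    exact h2

variable {r : ℕ} {e : Fin r × Fin 3 → ℕ}

/-- Scaling of a point. -/
theorem onx_smul (he : ∀ i l l', e (i, l) = e (i, l'))
    (c : (k : Fin r × Fin 3) → Fin (e k + 2) → ℤ) {K : Type} [Field K] (x : Fin 2 → K)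
    (z : Fin r → Fin 3 → K) (h : OnX c x z) (l : K) (hl : l ≠ 0) (μ : Fin r → K)
    (hμ : ∀ i, μ i ≠ 0) : OnX c (fun j => l * x j) (fun i j => μ i * z i j) := by
  have hv : ∀ k, fmv (c k) (l * x 0) (l * x 1) = l ^ (e k + 1) * fmv (c k) (x 0) (x 1) := by
    intro k
    unfold fmv
    rw [fm_smul]
  refine ⟨fun k => ?_, fun i => ⟨?_, ?_⟩⟩
  · show fmv (c k) (l * x 0) (l * x 1) ≠ 0
    rw [hv]
    exact mul_ne_zero (pow_ne_zero _ hl) (h.1 k)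
  · intro h0
    apply (h.2 i).1
    funext j
    have := congrFun h0 j
    simp only [Pi.zero_apply, mul_eq_zero] at this
    rcases this with h1 | h1
    · exact absurd h1 (hμ i)
    · exact h1
  · have h1 := (h.2 i).2
    show fmv (c (i, 0)) (l * x 0) (l * x 1) * (μ i * z i 0) ^ 2 +
      fmv (c (i, 1)) (l * x 0) (l * x 1) * (μ i * z i 1) ^ 2 =
      fmv (c (i, 2)) (l * x 0) (l * x 1) * (μ i * z i 2) ^ 2
    have he0 : l ^ (e (i, 0) + 1) = l ^ (e (i, 2) + 1) := by rw [he i 0 2]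
    have he1 : l ^ (e (i, 1) + 1) = l ^ (e (i, 2) + 1) := by rw [he i 1 2]
    rw [hv, hv, hv, he0, he1]
    have h2 : l ^ (e (i, 2) + 1) * fmv (c (i, 0)) (x 0) (x 1) * (μ i * z i 0) ^ 2 +
      l ^ (e (i, 2) + 1) * fmv (c (i, 1)) (x 0) (x 1) * (μ i * z i 1) ^ 2 =
      l ^ (e (i, 2) + 1) * μ i ^ 2 * (fmv (c (i, 0)) (x 0) (x 1) * z i 0 ^ 2 +
        fmv (c (i, 1)) (x 0) (x 1) * z i 1 ^ 2) := by ring
    rw [h2, h1]
    ring

/-- The points of the conics give solutions. -/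
theorem onx_ps (c : (k : Fin r × Fin 3) → Fin (e k + 2) → ℤ) {K : Type} [Field K] (x : Fin 2 → K)
    (z : Fin r → Fin 3 → K) (h : OnX c x z) : PS c (x 0) (x 1) := by
  refine ⟨h.1, fun i => ⟨z i 0, z i 1, z i 2, ?_, (h.2 i).2⟩⟩
  by_contra hn
  push Not at hn
  apply (h.2 i).1
  funext j
  fin_cases j
  · exact hn.1
  · exact hn.2.1
  · exact hn.2.2

theorem gluew_ (h : S_PADW) (h2 : S_TRW) : S_GLUEW := by
  intro r e hr he S N W n M hM hS hN c hbad X Z hXZ hXS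
  classical
  have hi0 : 0 < r := by omega
  -- the local integral points
  have h1 : ∀ p : Nat.Primes, ∃ b : Fin 2 → ℤ, (p : ℕ) ≤ W →
      (p ∈ S → ∀ j, ‖X p j - (b j : ℚ_[(p : ℕ)])‖ ≤ (((p : ℕ) : ℝ) ^ N)⁻¹) ∧
      (∀ k, ¬ (((p : ℕ) : ℤ) ^ (8 * n p + 24) ∣ fm (c k) (b 0) (b 1))) ∧
      ∃ z' : Fin r → Fin 3 → ℚ_[(p : ℕ)], (p ∈ S → ∀ i j, ‖Z p i j - z' i j‖ ≤ (((p : ℕ) : ℝ) ^ N)⁻¹) ∧
        (∀ i, ‖z' i‖ ≤ 1) ∧ OnX c (fun j => ((b j : ℤ) : ℚ_[(p : ℕ)])) z' := by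
    intro p
    by_cases hp : (p : ℕ) ≤ W
    swap
    · exact ⟨0, fun h2 => absurd h2 hp⟩
    have hp1 : (1 : ℝ) ≤ ((p : ℕ) : ℝ) := by exact_mod_cast p.2.one_lt.le
    have hpN : (((p : ℕ) : ℝ) ^ N)⁻¹ ≤ 1 := inv_le_one_of_one_le₀ (one_le_pow₀ hp1)
    have h3 : ∃ (x : Fin 2 → ℚ_[(p : ℕ)]) (z : Fin r → Fin 3 → ℚ_[(p : ℕ)]), ‖x‖ = 1 ∧
        (∀ i, ‖z i‖ = 1) ∧ OnX c x z ∧ (p ∈ S → x = X p ∧ z = Z p) := by
      by_cases hpS : p ∈ S
      · exact ⟨X p, Z p, (hXS p hpS).1, (hXS p hpS).2, hXZ p, fun _ => ⟨rfl, rfl⟩⟩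
      · have hX0 : X p ≠ 0 := by
          intro h0
          apply (hXZ p).1 (⟨0, hi0⟩, 0)
          rw [h0]
          exact fm_zero _
        obtain ⟨l, hl, hl1⟩ := exists_unit (X p) hX0
        have hz : ∀ i, ∃ μ : ℚ_[(p : ℕ)], μ ≠ 0 ∧ ‖fun j => μ * Z p i j‖ = 1 := fun i =>
          exists_unit (Z p i) ((hXZ p).2 i).1
        choose μ hμ hμ1 using hz
        exact ⟨fun j => l * X p j, fun i j => μ i * Z p i j, hl1, hμ1,
          onx_smul he c _ _ (hXZ p) l hl μ hμ, fun hh => absurd hh hpS⟩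
    obtain ⟨x, z, hx, hz, hxz, hxS⟩ := h3
    obtain ⟨b, hb1, hb2, z', hz1, hz2⟩ := h r e (p : ℕ) N (n p) (hN p) c (hbad p p.2 hp) x z hx hz hxz
    refine ⟨b, fun _ => ⟨fun hpS j => ?_, hb2, z', fun hpS i j => ?_, fun i => ?_, hz2⟩⟩
    · rw [← (hxS hpS).1]
      exact hb1 j
    · rw [← (hxS hpS).2]
      exact hz1 i j
    · rw [pi_norm_le_iff_of_nonneg zero_le_one]
      intro j
      have e1 : z' i j = z i j + -(z i j - z' i j) := by ring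
      rw [e1]
      refine (Padic.nonarchimedean _ _).trans (max_le ?_ ?_)
      · exact (norm_le_pi_norm (z i) j).trans (hz i).le
      · rw [norm_neg]
        exact (hz1 i j).trans hpN
  choose b' hb' using h1
  obtain ⟨b, hbb⟩ : ∃ b : ℕ → Fin 2 → ℤ, ∀ (p : ℕ) (hp : p.Prime), b p = b' ⟨p, hp⟩ :=
    ⟨fun p => if hp : p.Prime then b' ⟨p, hp⟩ else 0, fun p hp => by simp [hp]⟩
  set s : Finset ℕ := (Icc 1 W).filter Nat.Prime with hs
  have hco : ∀ p ∈ s, ∀ q ∈ s, p ≠ q →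
      IsCoprime ((p : ℤ) ^ (9 * n p + 26)) ((q : ℤ) ^ (9 * n q + 26)) := by
    intro p hp q hq hpq
    apply IsCoprime.pow
    exact Nat.isCoprime_iff_coprime.2 ((Nat.coprime_primes (Finset.mem_filter.1 hp).2
      (Finset.mem_filter.1 hq).2).2 hpq)
  have hcrt : ∀ j : Fin 2, ∃ a : ℤ, ∀ p ∈ s, (p : ℤ) ^ (9 * n p + 26) ∣ a - b p j := fun j =>
    crt s (fun p => (p : ℤ) ^ (9 * n p + 26)) hco (fun p => b p j)
  choose a ha using hcrt
  have hmem : ∀ p : ℕ, p.Prime → p ≤ W → p ∈ s := fun p hp hpW =>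
    Finset.mem_filter.2 ⟨Finset.mem_Icc.2 ⟨hp.one_le, hpW⟩, hp⟩
  -- transfer to the common base point
  have key : ∀ p : Nat.Primes, (p : ℕ) ≤ W →
      (p ∈ S → ∀ j, ‖X p j - (a j : ℚ_[(p : ℕ)])‖ ≤ (((p : ℕ) : ℝ) ^ N)⁻¹) ∧
      (∀ k, ¬ (((p : ℕ) : ℤ) ^ (8 * n p + 24) ∣ fm (c k) (a 0) (a 1))) ∧
      ∃ z' : Fin r → Fin 3 → ℚ_[(p : ℕ)], (p ∈ S → ∀ i j, ‖Z p i j - z' i j‖ ≤ (((p : ℕ) : ℝ) ^ N)⁻¹) ∧
        OnX c (fun j => ((a j : ℤ) : ℚ_[(p : ℕ)])) z' := by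
    intro p hp
    obtain ⟨h3, h4, z', h5, h6, h7⟩ := hb' p hp
    have hbp : b' p = b (p : ℕ) := (hbb p p.2).symm
    rw [hbp] at h3 h4 h7
    have hp1 : (1 : ℝ) ≤ ((p : ℕ) : ℝ) := by exact_mod_cast p.2.one_lt.le
    have hab : ∀ j, ((p : ℕ) : ℤ) ^ (9 * n p + 26) ∣ b (p : ℕ) j - a j := by
      intro j
      have h8 := ha j (p : ℕ) (hmem p p.2 hp)
      have h9 : b (p : ℕ) j - a j = -(a j - b (p : ℕ) j) := by ring
      rw [h9]
      exact (dvd_neg).2 h8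
    obtain ⟨h8, h9⟩ := h2 r e (p : ℕ) (n p) c c (b (p : ℕ)) a (fun k j => by simp) hab h4
    obtain ⟨z'', h10, h11⟩ := h9 z' h6 h7
    have hnN : (((p : ℕ) : ℝ) ^ n p)⁻¹ ≤ (((p : ℕ) : ℝ) ^ N)⁻¹ :=
      inv_anti₀ (by positivity) (pow_le_pow_right₀ hp1 (hN p))
    refine ⟨fun hpS j => ?_, h8, z'', fun hpS i j => ?_, h10⟩
    · have e1 : X p j - (a j : ℚ_[(p : ℕ)]) = (X p j - (b (p : ℕ) j : ℚ_[(p : ℕ)])) +
          ((b (p : ℕ) j - a j : ℤ) : ℚ_[(p : ℕ)]) := by push_cast; ring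
      rw [e1]
      refine (Padic.nonarchimedean _ _).trans (max_le (h3 hpS j) ?_)
      refine norm_int_le _ _ ?_
      have hNn : N ≤ 9 * n p + 26 := by have := hN p; omega
      exact (pow_dvd_pow _ hNn).trans (hab j)
    · have e1 : Z p i j - z'' i j = (Z p i j - z' i j) + (z' i j - z'' i j) := by ring
      rw [e1]
      exact (Padic.nonarchimedean _ _).trans (max_le (h5 hpS i j) ((h11 i j).trans hnN))
  refine ⟨a, fun p hpS => ?_, fun p hp hpW => (key ⟨p, hp⟩ hpW).2.1, ?_⟩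
  · obtain ⟨h3, h4, z', h5, h6⟩ := key p (hS p hpS)
    exact ⟨h3 hpS, z', h6, h5 hpS⟩
  · intro p hpF hpW
    obtain ⟨h3, h4, z', h5, h6⟩ := key ⟨p, hpF.out⟩ hpW
    exact onx_ps c _ _ h6

end Pool.Agent.N265.DW
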